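import Pool.Agent.Helper24K9.ES.Fin

set_option autoImplicit false

/-!
# Prime values of quadratic polynomials at the primes `p_(k n)`, for arbitrary sets of indices `k ≤ n`

Let `g(t) = α t² + β t + γ` and `h(t) = a t² + b t + c` be fixed polynomials with non-zero resultant, `α > 0`, or
`α = 0`, `β > 0`, `a ≠ 0`; for instance `g = t²`, `h = -2` or `g = t`, `h = t² - 2`. We look for the `k` in a given set
`A` of indices `k ≤ n`, for instance the `k` for which `2 k + 1` is prime, for which `h(p_(k n)) + j g(p_(k n))` is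
prime. For every large `n`, every `K ≥ exp(n^ε)` and every set `A` the number of the `j ≤ K` for which there is such a
`k` (even `≥ κ |A| / log K` of them) is at least `κ K` times the minimum of `|A| / log K` and `1 / log log log K`.

Proof: let `y = log log K` and let `P` be the product of the primes `≤ y`. In a class of the `j` modulo `P` the linear
forms `j g(p) + h(p)` in `j` for the `p` for which the class contains no multiples of the primes `≤ y` have coefficients
which are powers of `log K`, so the theorem of Siegel and Walfisz gives their first moment, and all arithmetic factors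
from the primes `> y` are bounded, so a sieve in two dimensions gives a second moment of the right order of magnitude,
whatever the set of the `p` is. On average over the classes at least the expected number of the `p` survives.
-/

namespace Pool.Agent.Results.MP_c971ef_nt.EveryIndexSet

open Finset

/-- the `m`-th prime, `p 1 = 2` -/
noncomputable def p (m : ℕ) : ℕ := Nat.nth Nat.Prime (m - 1)

/-- The polynomial. -/
def f (a b c : ℤ) (t : ℕ) : ℤ := a * (t : ℤ) ^ 2 + b * (t : ℤ) + c

/-- The number of the `k` in `A` for which the value of the polynomial at `p (k n)` is prime. -/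
noncomputable def count (A : Finset ℕ) (n : ℕ) (a b c : ℤ) : ℕ :=
  (A.filter (fun k : ℕ => (f a b c (p (k * n))).toNat.Prime)).card

/-- The number of the `k` in `A` for which no prime `q ≤ z` divides the value of the polynomial at `p (k n)`, divided
by the product of the factors `1 - 1 / q` over the primes `q ≤ z`. -/
noncomputable def rough (A : Finset ℕ) (n : ℕ) (a b c : ℤ) (z : ℕ) : ℝ :=
  ((A.filter (fun k : ℕ => ∀ q : ℕ, q ≤ z → q.Prime → ¬ (q : ℤ) ∣ f a b c (p (k * n)))).card : ℝ) /
    ∏ q ∈ (Icc 1 z).filter Nat.Prime, (1 - 1 / (q : ℝ))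

/-- **Prime values of quadratic polynomials at the primes `p_(k n)`, for arbitrary sets of indices `k ≤ n`.** Let
`g(t) = α t² + β t + γ` and `h(t) = a t² + b t + c`, where `α > 0`, or `α = 0`, `β > 0` and `a ≠ 0`, with non-zero
resultant. For all `ε > 0` and `θ < 1` there are `κ > 0` and `n₀` such that the following holds for all `n ≥ n₀`, all
`K` with `n^ε ≤ log K` and all sets `A` of positive integers `k ≤ n` for which `g(p_(k n))` and `h(p_(k n))` are
coprime (for `g = t²` or `g = t` and `h(0) ≠ 0` this is no restriction). For at least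
`κ · min(|A| / log K, 1 / log log log K) · K` of the `j ≤ K` the number of the `k` in `A` for which
`h(p_(k n)) + j g(p_(k n))` is prime is at least `κ |A| / log K` (so it is positive if `A` is not empty) and at least
`θ R / log K`, where `R` is `rough` for `z = ⌈log log K⌉`. -/
theorem result (α β γ a b c : ℤ) (hlead : 0 < α ∨ (α = 0 ∧ 0 < β ∧ a ≠ 0))
    (hres : (α * c - γ * a) ^ 2 ≠ (α * b - β * a) * (β * c - γ * b)) (ε θ : ℝ) (hε : 0 < ε) (hθ : θ < 1) :
    ∃ κ : ℝ, 0 < κ ∧ ∃ n₀ : ℕ, ∀ n K : ℕ, n₀ ≤ n → (n : ℝ) ^ ε ≤ Real.log K →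
      ∀ A ⊆ Icc 1 n, (∀ k ∈ A, IsCoprime (f α β γ (p (k * n))) (f a b c (p (k * n)))) →
      ∃ s ⊆ Icc 1 K, κ * min (A.card / Real.log K) (1 / Real.log (Real.log (Real.log K))) * K ≤ s.card ∧
        ∀ j ∈ s,
          κ * (A.card / Real.log K) ≤ count A n (a + α * j) (b + β * j) (c + γ * j) ∧
          θ * (rough A n (a + α * j) (b + β * j) (c + γ * j) ⌈Real.log (Real.log K)⌉₊ / Real.log K) ≤
            count A n (a + α * j) (b + β * j) (c + γ * j) := by
  classical
  let l : Pool.Agent.Helper24K9.EM.Ln := ⟨α, β, γ, a, b, c, hlead, hres⟩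
  have hv : ∀ j t : ℕ, (j : ℤ) * l.G t + l.H t = f (a + α * j) (b + β * j) (c + γ * j) t := by
    intro j t
    show (j : ℤ) * (α * (t : ℤ) ^ 2 + β * t + γ) + (a * (t : ℤ) ^ 2 + b * t + c) = _
    unfold f
    ring
  obtain ⟨m₀, hm₀⟩ := Pool.Agent.Helper24K9.ES.nth_prime_le
  set B : ℕ := ⌈4 / ε⌉₊ with hB
  obtain ⟨κ, hκ, K₀, h⟩ := l.sparse' B θ hθ
  -- `K` is large if `n` is
  obtain ⟨n₁, hn₁⟩ : ∃ n₁ : ℕ, ∀ n : ℕ, n₁ ≤ n → Real.log K₀ + 1 ≤ (n : ℝ) ^ ε := by
    have h1 : Filter.Tendsto (fun n : ℕ => (n : ℝ) ^ ε) Filter.atTop Filter.atTop :=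
      (tendsto_rpow_atTop hε).comp tendsto_natCast_atTop_atTop
    exact Filter.eventually_atTop.1 (h1.eventually_ge_atTop _)
  refine ⟨κ, hκ, max (max n₁ (m₀ + 1)) (max (l.t0 + 1) 1), fun n K hn hnK A hA hAc => ?_⟩
  have hnn₁ : n₁ ≤ n := ((le_max_left _ _).trans (le_max_left _ _)).trans hn
  have hnm₀ : m₀ + 1 ≤ n := ((le_max_right _ _).trans (le_max_left _ _)).trans hn
  have hnt0 : l.t0 + 1 ≤ n := ((le_max_left _ _).trans (le_max_right _ _)).trans hn
  have hn1 : 1 ≤ n := ((le_max_right _ _).trans (le_max_right _ _)).trans hn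
  have hlK : Real.log K₀ + 1 ≤ Real.log K := (hn₁ n hnn₁).trans hnK
  have hKK₀ : K₀ ≤ K := by
    by_contra hcon
    push Not at hcon
    rcases Nat.eq_zero_or_pos K with h0 | h0
    · rw [h0] at hlK
      simp only [Nat.cast_zero, Real.log_zero] at hlK
      have : 0 ≤ Real.log K₀ := Real.log_natCast_nonneg _
      linarith
    · have h1 : Real.log K ≤ Real.log K₀ := Real.log_le_log (by exact_mod_cast h0) (by exact_mod_cast hcon.le)
      linarith
  have hlK0 : 0 ≤ Real.log K := Real.log_natCast_nonneg _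
  have hlK1 : 1 ≤ Real.log K := by
    have : 0 ≤ Real.log K₀ := Real.log_natCast_nonneg _
    linarith
  -- the primes
  have hp1 : ∀ k ∈ A, l.t0 ≤ p (k * n) := by
    intro k hk
    have hk1 := (mem_Icc.1 (hA hk)).1
    have h1 : n ≤ k * n := Nat.le_mul_of_pos_left _ hk1
    have h2 : k * n - 1 ≤ Nat.nth Nat.Prime (k * n - 1) := (Nat.nth_strictMono Nat.infinite_setOf_prime).le_apply
    unfold p
    omega
  have hp2 : ∀ k ∈ A, (p (k * n) : ℝ) ≤ Real.log K ^ B := by
    intro k hk
    have hk1 := mem_Icc.1 (hA hk)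
    have h1 : n ≤ k * n := Nat.le_mul_of_pos_left _ hk1.1
    have h2 : p (k * n) ≤ (k * n - 1 + 1) ^ 2 := hm₀ (k * n - 1) (by omega)
    have h3 : k * n - 1 + 1 = k * n := by omega
    rw [h3] at h2
    have h4 : (k * n) ^ 2 ≤ (n * n) ^ 2 := Nat.pow_le_pow_left (Nat.mul_le_mul_right _ hk1.2) 2
    have h5 : (p (k * n) : ℝ) ≤ (n : ℝ) ^ 4 := by
      have h6 : p (k * n) ≤ n ^ 4 := (h2.trans h4).trans (le_of_eq (by ring))
      exact_mod_cast h6
    have hn0 : (0:ℝ) ≤ n := Nat.cast_nonneg _
    have h6 : (n : ℝ) ^ 4 = ((n : ℝ) ^ ε) ^ (4 / ε) := by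
      rw [← Real.rpow_mul hn0, mul_div_cancel₀ _ hε.ne']
      norm_cast
    rw [h6] at h5
    refine h5.trans ?_
    calc ((n : ℝ) ^ ε) ^ (4 / ε) ≤ (Real.log K) ^ (4 / ε) :=
          Real.rpow_le_rpow (by positivity) hnK (by positivity)
      _ ≤ (Real.log K) ^ (B : ℝ) := Real.rpow_le_rpow_of_exponent_le hlK1 (Nat.le_ceil _)
      _ = Real.log K ^ B := Real.rpow_natCast _ _
  have hinj : Set.InjOn (fun k => p (k * n)) A := by
    intro k hk k' hk' hkk
    have hk1 := (mem_Icc.1 (hA hk)).1
    have hk1' := (mem_Icc.1 (hA hk')).1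
    have h1 : k * n - 1 = k' * n - 1 := (Nat.nth_strictMono Nat.infinite_setOf_prime).injective hkk
    have h2 : 1 ≤ k * n := Nat.mul_pos hk1 hn1
    have h3 : 1 ≤ k' * n := Nat.mul_pos hk1' hn1
    have h4 : k * n = k' * n := by omega
    exact Nat.eq_of_mul_eq_mul_right hn1 h4
  set T : Finset ℕ := A.image (fun k => p (k * n)) with hT
  have hTcard : T.card = A.card := card_image_of_injOn hinj
  have hmem : ∀ t ∈ T, ∃ k ∈ A, p (k * n) = t := fun t ht => mem_image.1 ht
  have h1 := h K hKK₀ T (by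
    intro t ht
    obtain ⟨k, hk, rfl⟩ := hmem t ht
    exact ⟨hp1 k hk, hp2 k hk⟩) (by
    intro t ht
    obtain ⟨k, hk, rfl⟩ := hmem t ht
    exact hAc k hk)
  rw [hTcard] at h1
  refine ⟨_, filter_subset _ _, h1, fun j hj => ?_⟩
  obtain ⟨h2, h3⟩ := (mem_filter.1 hj).2
  have ecard : ∀ Q : ℕ → Prop, [DecidablePred Q] → (T.filter Q).card = (A.filter (fun k => Q (p (k * n)))).card := by
    intro Q _
    rw [hT, filter_image]
    exact card_image_of_injOn (hinj.mono (by intro x hx; exact (mem_filter.1 hx).1))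
  have eN : l.numP j T = count A n (a + α * j) (b + β * j) (c + γ * j) := by
    unfold Pool.Agent.Helper24K9.EM.Ln.numP count
    rw [ecard]
    simp only [hv]
  have eU : (l.unsieved (Pool.Agent.Helper24K9.EM.Ln.yK K) j T : ℝ) /
      Pool.Agent.W218.HF.Wz (Pool.Agent.Helper24K9.EM.Ln.yK K) =
      rough A n (a + α * j) (b + β * j) (c + γ * j) ⌈Real.log (Real.log K)⌉₊ := by
    unfold Pool.Agent.Helper24K9.EM.Ln.unsieved Pool.Agent.W218.HF.Wz rough Pool.Agent.Helper24K9.EM.Ln.yK
    rw [ecard]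
    simp only [hv]
  rw [eN] at h2
  rw [eN, eU] at h3
  exact ⟨h2, h3⟩

end Pool.Agent.Results.MP_c971ef_nt.EveryIndexSet
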