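import Pool.Agent.Helper32K9.QB.Gen3
import Pool.Agent.Helper32K9.QA.Psz

/-!
# Prime values at the primes `p_(k n)` for almost all polynomials congruent to a given one modulo all small primes

The question asks for `k ≤ n` such that `2 k + 1` and the value of the polynomial `t ^ 2 - 2` at the prime `p_(k n)` are
primes. Let `P₀` be any integer polynomial, for instance `t ^ 2 - 2`, and let `K` be any set of numbers `k ≤ n`, for
instance the set of all `k ≤ n` for which `2 k + 1` is a prime. We show that the number of the `k` in `K` for which the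
value at `p_(k n)` is a prime is, for almost all polynomials `P` which are congruent to `P₀` modulo all primes
`q ≤ z = T ⌈log log H⌉`, the one which is predicted by `P₀` and the primes `q ≤ z`.
-/

set_option autoImplicit false

namespace Pool.Agent.Results.MP_c971ef_nt.EveryResidueClass

open Finset

/-- The `m`-th prime, `p 1 = 2`. -/
noncomputable def p (m : ℕ) : ℕ := Nat.nth Nat.Prime (m - 1)

/-- The integer polynomials of degree at most `d` with coefficients of absolute value at most `H`, given by their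
coefficients. -/
noncomputable def polys (d H : ℕ) : Finset (Fin (d + 1) → ℤ) := Fintype.piFinset (fun _ => Icc (-(H : ℤ)) H)

/-- The value at `x` of the polynomial with the coefficients `P`. -/
def value {d : ℕ} (P : Fin (d + 1) → ℤ) (x : ℕ) : ℤ := ∑ j, P j * (x : ℤ) ^ (j : ℕ)

open Classical in
/-- The number of the elements of `S` with the property `F`. -/
noncomputable def number {α : Type} (S : Finset α) (F : α → Prop) : ℝ := ((S.filter F).card : ℝ)

/-- The primes up to `z`. -/
def primes (z : ℕ) : Finset ℕ := (Icc 1 z).filter Nat.Prime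

/-- The product of the primes up to `z`. -/
def modulus (z : ℕ) : ℕ := ∏ q ∈ primes z, q

open Classical in
/-- The polynomials in `polys d H` which are congruent to `P₀` modulo `W` (coefficient by coefficient). -/
noncomputable def residueClass (d H W : ℕ) (P₀ : Fin (d + 1) → ℤ) : Finset (Fin (d + 1) → ℤ) :=
  (polys d H).filter (fun P => ∀ i, (W : ℤ) ∣ P i - P₀ i)

open Classical in
/-- `log H` if `u` is a prime up to the sign, otherwise `0`. -/
noncomputable def primeWeight (H : ℕ) (u : ℤ) : ℝ := if u.natAbs.Prime then Real.log H else 0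

open Classical in
/-- The product of `1 / (1 - 1 / q)` over the primes `q ≤ z` if no prime `q ≤ z` divides `u`, otherwise `0`. -/
noncomputable def roughWeight (z : ℕ) (u : ℤ) : ℝ :=
  if (∀ q ∈ primes z, ¬ (q : ℤ) ∣ u) then ∏ q ∈ primes z, (1 - 1 / (q : ℝ))⁻¹ else 0

lemma prime_eq {d : ℕ} (H : ℕ) (P : Fin (d + 1) → ℤ) (x : ℕ) :
    Pool.Agent.Helper32K9.QB.Fr (Real.log H) (fun _ : Fin 1 => x) P = primeWeight H (value P x) := by
  classical
  rw [Pool.Agent.Helper32K9.QB.Fr_eq, pow_one]
  unfold primeWeight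
  by_cases h : (value P x).natAbs.Prime
  · rw [if_pos h]
    exact if_pos (fun _ => h)
  · rw [if_neg h]
    exact if_neg (fun h1 => h (h1 0))

lemma rough_eq {d : ℕ} (z : ℕ) (P : Fin (d + 1) → ℤ) (x : ℕ) :
    Pool.Agent.Helper32K9.QB.Rr z (fun _ : Fin 1 => x) P = roughWeight z (value P x) := by
  classical
  rw [Pool.Agent.Helper32K9.QB.Rr_eq]
  unfold roughWeight primes
  have e : ∏ q ∈ (Icc 1 z).filter Nat.Prime, (1 - 1 / (q : ℝ))⁻¹ =
      ∏ q ∈ (Icc 1 z).filter Nat.Prime, ((1 - 1 / (q : ℝ)) ^ 1)⁻¹ := prod_congr rfl fun q _ => by rw [pow_one]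
  rw [e]
  by_cases h : ∀ q ∈ (Icc 1 z).filter Nat.Prime, ¬ (q : ℤ) ∣ value P x
  · rw [if_pos h]
    exact if_pos (fun _ => h)
  · rw [if_neg h]
    exact if_neg (fun h1 => h (h1 0))

lemma number_le {α : Type} (S : Finset α) (F G : α → Prop) [DecidablePred G] (h : ∀ a ∈ S, F a → G a) :
    number S F ≤ ((S.filter G).card : ℝ) := by
  classical
  unfold number
  exact Nat.cast_le.2 (card_le_card fun a ha => mem_filter.2 ⟨(mem_filter.1 ha).1, h a (mem_filter.1 ha).1 (mem_filter.1 ha).2⟩)

lemma class_eq (d H z : ℕ) (P₀ : Fin (d + 1) → ℤ) :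
    residueClass d H (modulus z) P₀ = Pool.Agent.Helper32K9.QB.Cl d H (primorial z) P₀ := by
  classical
  have h : modulus z = primorial z := (Pool.Agent.Helper32K9.QB.primorial_eq' z).symm
  unfold residueClass Pool.Agent.Helper32K9.QB.Cl
  rw [h]
  ext P
  rw [Finset.mem_filter]
  constructor
  · intro h1
    exact Finset.mem_filter.2 h1
  · intro h1
    exact Finset.mem_filter.1 h1

/-- Let `d ≥ 1`, `B` and `ε > 0` be given. There is `T₀` such that for every `T ≥ T₀` there is `A` such that for all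
`H ≥ A`, with `z = T ⌈log log H⌉` and `W` the product of the primes `q ≤ z`: for ALL `n ≤ (log H) ^ B`, ALL sets `K` of
at least `A log H` positive integers `k ≤ n`, all real numbers `c k` with `|c k| ≤ 1` and ALL integer polynomials `P₀` of
degree at most `d`: all but `ε (number)` of the integer polynomials `P` of degree at most `d` with coefficients at most
`H` which are congruent to `P₀` modulo `W` satisfy: the sum over the `k` in `K` of `c k` times the difference of the
weight of the prime values `P(p_(k n))` and the weight of the values `P₀(p_(k n))` without prime factors `q ≤ z` is at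
most `ε` times the number of the elements of `K` plus the sum of `|c k|` times the second weight. -/
theorem result (d B : ℕ) (hd : 1 ≤ d) (ε : ℝ) (hε : 0 < ε) : ∃ T₀ : ℕ, ∀ T : ℕ, T₀ ≤ T → ∃ A : ℕ, ∀ H : ℕ, A ≤ H →
    ∀ z W : ℕ, z = T * ⌈Real.log (Real.log H)⌉₊ → W = modulus z →
    ∀ n : ℕ, (n : ℝ) ≤ Real.log H ^ B → ∀ K : Finset ℕ, (∀ k ∈ K, 1 ≤ k ∧ k ≤ n) → A * Real.log H ≤ K.card →
    ∀ c : ℕ → ℝ, (∀ k, |c k| ≤ 1) → ∀ P₀ : Fin (d + 1) → ℤ,
    number (residueClass d H W P₀) (fun P =>
      ¬ |∑ k ∈ K, c k * (primeWeight H (value P (p (k * n))) - roughWeight z (value P₀ (p (k * n))))| ≤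
        ε * (K.card + ∑ k ∈ K, |c k| * roughWeight z (value P₀ (p (k * n))))) ≤
      ε * (residueClass d H W P₀).card := by
  classical
  obtain ⟨E, hE⟩ := Pool.Agent.Helper32K9.QA.psz
  obtain ⟨T₀, h⟩ := Pool.Agent.Helper32K9.QB.gen 1 d (B * (2 * E)) 1 (by omega) ε hε
  refine ⟨T₀, fun T hT => ?_⟩
  obtain ⟨A, h⟩ := h T hT
  refine ⟨max A 8, fun H hH z W hz hW n hn K hK hcard c hc P₀ => ?_⟩
  have hA : A ≤ H := (le_max_left _ _).trans hH
  have hH8 : (8 : ℝ) ≤ H := by exact_mod_cast (le_max_right _ _).trans hH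
  have hL1 : 1 ≤ Real.log H := by
    rw [← Real.log_exp 1]
    apply Real.log_le_log (Real.exp_pos _)
    have := Real.exp_one_lt_d9
    linarith
  have hKn : K.card ≤ n := by
    have h1 : K ⊆ Icc 1 n := fun k hk => mem_Icc.2 (hK k hk)
    have h2 := card_le_card h1
    rw [Nat.card_Icc, Nat.add_sub_cancel] at h2
    exact h2
  have hK8 : (8 : ℝ) ≤ K.card := by
    refine le_trans ?_ hcard
    have : (8 : ℝ) ≤ ((max A 8 : ℕ) : ℝ) := by exact_mod_cast le_max_right _ _
    nlinarith
  have hn8 : 8 ≤ n := by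
    have : (8 : ℝ) ≤ n := hK8.trans (by exact_mod_cast hKn)
    exact_mod_cast this
  have hpts : ∀ k ∈ K, Function.Injective (fun _ : Fin 1 => p (k * n)) ∧
      ∀ _a : Fin 1, 1 ≤ p (k * n) ∧ ((p (k * n) : ℕ) : ℝ) ≤ Real.log H ^ (B * (2 * E)) := by
    intro k hk
    refine ⟨fun a b _ => Subsingleton.elim a b, fun _ => ⟨(Nat.prime_nth_prime _).one_lt.le, ?_⟩⟩
    have h1 : p (k * n) ≤ Pool.Agent.Helper32K9.QA.pr (n * n) :=
      Pool.Agent.Helper32K9.QA.SmL.pr_mono (Nat.mul_le_mul_right n (hK k hk).2)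
    have h2 := Pool.Agent.Helper32K9.QA.SmL.pr_ge (Pool.Agent.Helper32K9.QA.pr (n * n))
    have h3 := hE (n * n) (by nlinarith)
    have h4 : ((p (k * n) : ℕ) : ℝ) ≤ ((n * n : ℕ) : ℝ) ^ E := by exact_mod_cast h1.trans (h2.trans h3)
    refine h4.trans ?_
    have h5 : ((n * n : ℕ) : ℝ) = (n : ℝ) ^ 2 := by push_cast; ring
    rw [h5, ← pow_mul, pow_mul (Real.log H)]
    exact pow_le_pow_left₀ (Nat.cast_nonneg _) hn _
  have hD : ∀ k ∈ K, (K.filter (fun k' => ¬ Pool.Agent.Helper32K9.QB.Apart (fun _ : Fin 1 => p (k * n))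
      (fun _ : Fin 1 => p (k' * n)))).card ≤ 1 := by
    intro k hk
    apply card_le_one.2
    have key : ∀ a, a ∈ K.filter (fun k' => ¬ Pool.Agent.Helper32K9.QB.Apart (fun _ : Fin 1 => p (k * n))
        (fun _ : Fin 1 => p (k' * n))) → a = k := by
      intro a ha
      obtain ⟨ha1, ha2⟩ := Finset.mem_filter.1 ha
      unfold Pool.Agent.Helper32K9.QB.Apart at ha2
      push Not at ha2
      obtain ⟨_, _, h1⟩ := ha2
      unfold p at h1
      have h2 := Nat.nth_injective Nat.infinite_setOfPred_prime h1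
      have h3 : 1 ≤ k * n := Nat.mul_pos (hK k hk).1 (by omega)
      have h4 : 1 ≤ a * n := Nat.mul_pos (hK a ha1).1 (by omega)
      have h5 : k * n = a * n := by omega
      exact (Nat.eq_of_mul_eq_mul_right (by omega) h5).symm
    intro a ha b hb
    rw [key a ha, key b hb]
  have hmain := h H hA ℕ K (fun k _ => p (k * n)) hpts hD (by
    rw [pow_one]
    refine le_trans ?_ hcard
    apply mul_le_mul_of_nonneg_right _ (by linarith)
    exact_mod_cast le_max_left _ _) c hc P₀
  have hzz : Pool.Agent.Helper32K9.QA.zz T H = z := hz.symm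
  rw [hzz] at hmain
  simp only [prime_eq, rough_eq] at hmain
  rw [hW, class_eq]
  refine le_trans (number_le _ _ _ ?_) hmain
  intro P _ hP hle
  exact hP hle

end Pool.Agent.Results.MP_c971ef_nt.EveryResidueClass
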