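import Pool.Agent.R498.MP.LinC
import Pool.Agent.Helper32K9.Str.Index

set_option autoImplicit false

/-!
# A positive proportion of the patterns of the primes `p_(k n)`, `k` in a residue class, with almost prime `p ^ 2 - 2`
-/

namespace Pool.Agent.Results.MP_c971ef_nt.IndexPatterns

open Filter

/-- the `j`-th prime, `p 1 = 2` -/
noncomputable def p (j : ℕ) : ℕ := Nat.nth Nat.Prime (j - 1)

/-- `y ^ 2 - 2` has at most `R` prime factors, counted with multiplicity, all of them at least `w`. -/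
def AlmostPrimeValue (R : ℕ) (w : ℝ) (y : ℕ) : Prop :=
  (y ^ 2 - 2).primeFactorsList.length ≤ R ∧ ∀ s : ℕ, s.Prime → s ∣ y ^ 2 - 2 → w ≤ s

/-- For some `x` and some `k ≡ b` modulo `M` the set `x + H` consists exactly of the primes `p_(k n)`,
`p_((k + M) n)`, ..., `p_((k + r M) n)`; they lie in `(N, 2 N]`, are `≡ e` modulo `q`, and the values of `y ^ 2 - 2`
at them have at most `R` prime factors, all at least `N ^ δ`. -/
def OccursAt (n M b q e r R : ℕ) (δ : ℝ) (N : ℕ) (H : Finset ℕ) : Prop :=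
  ∃ x k : ℕ, 1 ≤ k ∧ k ≡ b [MOD M] ∧
    H.image (fun h => x + h) = (Finset.range (r + 1)).image (fun i => p ((k + i * M) * n)) ∧
    ∀ h ∈ H, N < x + h ∧ x + h ≤ 2 * N ∧ x + h ≡ e [MOD q] ∧ AlmostPrimeValue R ((N : ℝ) ^ δ) (x + h)

theorem nonzero (n : ℤ) (_hn : n ≠ 0) : n ^ 2 - 2 ≠ 0 := by
  intro h
  have h1 : n ^ 2 = 2 := by linarith
  have h2 : n.natAbs ^ 2 = 2 := by
    have := congrArg Int.natAbs h1
    rwa [Int.natAbs_pow] at this
  have h3 : n.natAbs < 2 := by nlinarith
  interval_cases n.natAbs <;> omega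

theorem cast_val (y : ℕ) (hy : 2 ≤ y) : (y : ℤ) ^ 2 - 2 = ((y ^ 2 - 2 : ℕ) : ℤ) := by
  have h : 2 ≤ y ^ 2 := by nlinarith
  push_cast [Nat.cast_sub h]
  ring

/-- **A positive proportion of the patterns.** Let `n, M ≥ 1`, let `q` be squarefree and `e (e ^ 2 - 2)` coprime to
`q` (for instance `q = 1`). For every `r` there are `C`, `R` and `δ > 0` such that, for every finite set `T` of at least
`C` nonnegative integers, every class `b` modulo `M` and all large `N`, the proportion of the `(r + 1)`-element subsets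
`H` of `T` with `OccursAt` is at least `1 / C`. For `b = 0` and `M` the product of the primes `≤ z` the numbers
`2 k + 1` at these `k` have no prime factor `≤ z`. -/
theorem result (n M : ℕ) (hn : 1 ≤ n) (hM : 1 ≤ M) (q e : ℕ) (hq : Squarefree q)
    (he : IsCoprime ((e : ℤ) * ((e : ℤ) ^ 2 - 2)) (q : ℤ)) (r : ℕ) :
    ∃ (C R : ℕ) (δ : ℝ), 0 < C ∧ 0 < δ ∧ ∀ T : Finset ℕ, C ≤ T.card → ∀ b : ℕ, ∀ᶠ N : ℕ in atTop,
      T.card.choose (r + 1) ≤ C * {H : Finset ℕ | H ⊆ T ∧ H.card = r + 1 ∧ OccursAt n M b q e r R δ N H}.ncard := by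
  have hev : ∀ n : ℤ, (Polynomial.X ^ 2 - Polynomial.C 2 : Polynomial ℤ).eval n = n ^ 2 - 2 := fun n => by simp
  obtain ⟨C, R, δ, hC, hδ, hmain⟩ := Pool.Agent.Helper32K9.Str.index_prop
    (Polynomial.X ^ 2 - Polynomial.C 2)
    (fun n hn => by rw [hev]; exact nonzero n hn)
    (fun p hp => ⟨1, by
      rw [hev]
      norm_num
      intro h
      exact hp.one_lt.ne' (Nat.dvd_one.1 (by exact_mod_cast h))⟩) q e hq (fun p hp hpq => by
      rw [hev]
      exact Pool.Agent.R498.MP.cop_to _ q he p hp hpq) (n * M) r (Nat.mul_pos hn hM)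
  refine ⟨C, R, δ, hC, hδ, fun T hT b => ?_⟩
  filter_upwards [hmain T hT (n * (b + M) - 1), eventually_ge_atTop 2] with N hN hN2
  refine hN.trans (Nat.mul_le_mul_left _ (Set.ncard_le_ncard ?_ ?_))
  · rintro H ⟨hHT, hHm, x, k, h3, h4⟩
    refine ⟨hHT, hHm, x, M * k + (b + M), by omega, ?_, ?_, fun h hh => ?_⟩
    · have e1 : M * k + (b + M) = b + M * (k + 1) := by ring
      rw [e1]
      exact Nat.add_mul_mod_self_left _ _ _
    · rw [h3]
      apply Finset.image_congr
      intro i _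
      have e1 : (M * k + (b + M) + i * M) * n = n * M * (k + i) + n * (b + M) := by ring
      have e2 : 1 ≤ n * (b + M) := Nat.mul_pos hn (by omega)
      have e3 : n * M * (k + i) + (n * (b + M) - 1) = (M * k + (b + M) + i * M) * n - 1 := by
        rw [e1]
        omega
      simp only [p, e3]
    · obtain ⟨g1, g2, g3, -, g5, g6⟩ := h4 h hh
      have hx : 2 ≤ x + h := by omega
      rw [hev, cast_val _ hx] at g5 g6
      rw [Int.natAbs_natCast] at g5
      exact ⟨g1, g2, g3, g5, fun s hs hsd => g6 s hs (by exact_mod_cast hsd)⟩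
  · apply (T.powersetCard (r + 1)).finite_toSet.subset
    rintro H ⟨h1, h2, -⟩
    exact Finset.mem_coe.2 (Finset.mem_powersetCard.2 ⟨h1, h2⟩)

end Pool.Agent.Results.MP_c971ef_nt.IndexPatterns
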