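import Pool.Agent.Helper24K9.LI.Li
import Pool.Agent.Helper24K9.LI.Np

set_option autoImplicit false

/-!
# Prime values of quadratic polynomials at the primes `p_(k n)`: coefficients bounded by a power of `n`

Let `i` be `1` or `2` and `h(t) = a t² + b t + c` with `c ≠ 0`; for instance `i = 2`, `h = -2` or `i = 1`,
`h = t² - 2`. We look for the `k` in a given set `A` of indices `k ≤ n`, for instance the `k` for which `2 k + 1` is
prime, for which `h(p_(k n)) + j p_(k n)^i` is prime, where `j` is at most a power of `n`. For every large `n` and every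
set `A` with at least two elements the sum of `1 / j` over the `j ≤ n^C` for which there is such a `k` is at least
`κ min(|A|, log n / log log n)`, so for `|A| ≥ log n` this holds for a logarithmic proportion at least `κ / log log n` of
the `j ≤ n^C`.

Proof: for a fixed `k` the condition on `j` is a condition on primes in a progression whose modulus is a power of `j`,
so the theorem of Siegel and Walfisz is not applicable. We use the lower bound of Linnik for primes in progressions
outside the multiples of an exceptional modulus `q₁`. Since the `p_(k n)` are distinct primes, the smallest prime factor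
of `q₁` divides at most one of them. Let `P` be the product of the other primes `≤ log Z / 64`. In a class of the `j`
modulo `P` we only use those `k` for which `h(p_(k n)) + j p_(k n)^i` is coprime to `P`; then all arithmetic factors in
an upper bound sieve for pairs are bounded, whatever the set `A` is, and the second moment has the right order.
-/

namespace Pool.Agent.Results.MP_c971ef_nt.PolynomialRange

open Finset

/-- the `m`-th prime, `p 1 = 2` -/
noncomputable def p (m : ℕ) : ℕ := Nat.nth Nat.Prime (m - 1)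

/-- The value of the polynomial `j t ^ i + (a t ^ 2 + b t + c)`. -/
def val (i : ℕ) (a b c : ℤ) (j t : ℕ) : ℤ := (t : ℤ) ^ i * j + (a * (t : ℤ) ^ 2 + b * (t : ℤ) + c)

/-- The number of the `k` in `A` for which the value of the polynomial at `p (k n)` is prime. -/
noncomputable def count (A : Finset ℕ) (n i : ℕ) (a b c : ℤ) (j : ℕ) : ℕ :=
  (A.filter (fun k : ℕ => (val i a b c j (p (k * n))).toNat.Prime)).card

/-- The number of the `k` in `A` for which no prime `q ≤ z` divides the value of the polynomial at `p (k n)`, divided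
by the product of the factors `1 - 1 / q` over the primes `q ≤ z`. -/
noncomputable def rough (A : Finset ℕ) (n i : ℕ) (a b c : ℤ) (z j : ℕ) : ℝ :=
  ((A.filter (fun k : ℕ => ∀ q : ℕ, q ≤ z → q.Prime → ¬ (q : ℤ) ∣ val i a b c j (p (k * n)))).card : ℝ) /
    ∏ q ∈ (Icc 1 z).filter Nat.Prime, (1 - 1 / (q : ℝ))

/-- The values at different arguments are not proportional. -/
lemma ne_of_ne (i : ℕ) (a b c : ℤ) (hc : c ≠ 0) (hi : i = 1 ∨ i = 2) (s t : ℕ) (hs : 2 * c.natAbs < s)
    (ht : 2 * c.natAbs < t) (hst : s ≠ t) :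
    ((s ^ i : ℕ) : ℤ) * (a * (t : ℤ) ^ 2 + b * (t : ℤ) + c) ≠ ((t ^ i : ℕ) : ℤ) * (a * (s : ℤ) ^ 2 + b * (s : ℤ) + c) := by
  have hs' : 2 * |c| < (s : ℤ) := by rw [← Int.natCast_natAbs]; exact_mod_cast hs
  have ht' : 2 * |c| < (t : ℤ) := by rw [← Int.natCast_natAbs]; exact_mod_cast ht
  have hc1 : 1 ≤ |c| := Int.one_le_abs hc
  have hst' : (s : ℤ) - t ≠ 0 := sub_ne_zero.2 (by exact_mod_cast hst)
  have hs0 : (0:ℤ) < s := by linarith
  have ht0 : (0:ℤ) < t := by linarith
  intro h
  push_cast at h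
  rcases hi with rfl | rfl
  · have h1 : ((s : ℤ) - t) * (c - a * (s * t)) = 0 := by linear_combination h
    rcases mul_eq_zero.1 h1 with h2 | h2
    · exact hst' h2
    · have h3 : c = a * (s * t) := by linarith
      by_cases ha : a = 0
      · rw [ha, zero_mul] at h3; exact hc h3
      · have h4 : |c| = |a| * (s * t) := by rw [h3, abs_mul, abs_of_pos (mul_pos hs0 ht0)]
        have h5 := Int.one_le_abs ha
        have h6 : (s : ℤ) * t ≤ |a| * (s * t) := le_mul_of_one_le_left (mul_pos hs0 ht0).le h5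
        have h7 : 2 * |c| * t < s * t := mul_lt_mul_of_pos_right hs' ht0
        have h8 : 2 * |c| * 1 ≤ 2 * |c| * t := mul_le_mul_of_nonneg_left (by linarith) (by linarith)
        linarith
  · have h1 : ((s : ℤ) - t) * (b * (s * t) + c * (s + t)) = 0 := by linear_combination h
    rcases mul_eq_zero.1 h1 with h2 | h2
    · exact hst' h2
    · by_cases hb : b = 0
      · rw [hb, zero_mul, zero_add] at h2
        rcases mul_eq_zero.1 h2 with h3 | h3
        · exact hc h3
        · linarith
      · have h3 : b * (s * t) = - (c * (s + t)) := by linarith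
        have h4 : |b| * (s * t) = |c| * (s + t) := by
          have := congrArg abs h3
          rw [abs_mul, abs_of_pos (mul_pos hs0 ht0), abs_neg, abs_mul, abs_of_pos (add_pos hs0 ht0)] at this
          exact this
        have h5 := Int.one_le_abs hb
        have h6 : (s : ℤ) * t ≤ |b| * (s * t) := le_mul_of_one_le_left (mul_pos hs0 ht0).le h5
        have h7 : 2 * |c| * t < s * t := mul_lt_mul_of_pos_right hs' ht0
        have h8 : 2 * |c| * s < t * s := mul_lt_mul_of_pos_right ht' hs0
        nlinarith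

/-- **Prime values of quadratic polynomials at the primes `p_(k n)`: coefficients bounded by a power of `n`.** Let `i`
be `1` or `2` and `c ≠ 0`. There are `C`, `κ > 0` and `n₀` such that for all `n ≥ n₀`, all `Z ≥ n^513` and all sets `A`
of at least two positive integers `k ≤ n` the sum of `1 / j` over the `j` with `√Z < j ≤ Z^C` for which the number of the
`k` in `A` with a prime value `j p_(k n)^i + a p_(k n)^2 + b p_(k n) + c` is at least `1`, at least `κ |A| / log Z` and
at least `κ R / log Z`, where `R` is `rough` for `z = ⌊log Z / 64⌋`, is at least `κ min(|A|, log Z / log log Z)`. -/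
theorem result (i : ℕ) (hi : i = 1 ∨ i = 2) (a b c : ℤ) (hc : c ≠ 0) :
    ∃ (C : ℕ) (κ : ℝ), 1 ≤ C ∧ 0 < κ ∧ ∃ n₀ : ℕ, ∀ n Z : ℕ, n₀ ≤ n → n ^ 513 ≤ Z → ∀ A ⊆ Icc 1 n, 2 ≤ A.card →
      ∃ s ⊆ Ioc (Nat.sqrt Z) (Z ^ C), κ * min (A.card : ℝ) (Real.log Z / Real.log (Real.log Z)) ≤ ∑ j ∈ s, 1 / (j : ℝ) ∧
        ∀ j ∈ s, 1 ≤ count A n i a b c j ∧
          κ * (A.card / Real.log Z) ≤ count A n i a b c j ∧
          κ * (rough A n i a b c ⌊Real.log Z / 64⌋₊ j / Real.log Z) ≤ count A n i a b c j := by
  classical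
  obtain ⟨C, hC, κ, hκ, z₀, h⟩ := Pool.Agent.Helper24K9.LI.linnik_forms
  obtain ⟨m₀, hm₀⟩ := Pool.Agent.Helper24K9.LI.nth_prime_le
  set S : ℕ := a.natAbs + b.natAbs + c.natAbs with hS
  refine ⟨C, κ, hC, hκ, max (max z₀ (m₀ + 1)) (max (2 * c.natAbs + 1) (max (S ^ 64) 1)), fun n Z hn hZ A hA hA2 => ?_⟩
  have hnz : z₀ ≤ n := ((le_max_left _ _).trans (le_max_left _ _)).trans hn
  have hnm : m₀ + 1 ≤ n := ((le_max_right _ _).trans (le_max_left _ _)).trans hn
  have hnc : 2 * c.natAbs + 1 ≤ n := ((le_max_left _ _).trans (le_max_right _ _)).trans hn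
  have hnS : S ^ 64 ≤ n := ((le_max_left _ _).trans ((le_max_right _ _).trans (le_max_right _ _))).trans hn
  have hn1 : 1 ≤ n := ((le_max_right _ _).trans ((le_max_right _ _).trans (le_max_right _ _))).trans hn
  have hZn : n ≤ Z := (Nat.le_self_pow (by norm_num) n).trans hZ
  have hpp : ∀ m, (p m).Prime := fun m => Nat.prime_nth_prime _
  have hp1 : ∀ k ∈ A, n ≤ p (k * n) := by
    intro k hk
    have hk1 := (mem_Icc.1 (hA hk)).1
    have h1 : n ≤ k * n := Nat.le_mul_of_pos_left _ hk1
    have h2 : k * n - 1 + 2 ≤ Nat.nth Nat.Prime (k * n - 1) := Nat.add_two_le_nth_prime _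
    unfold p
    omega
  have hp2 : ∀ k ∈ A, p (k * n) ≤ n ^ 4 := by
    intro k hk
    have hk1 := mem_Icc.1 (hA hk)
    have h1 : n ≤ k * n := Nat.le_mul_of_pos_left _ hk1.1
    have h2 : p (k * n) ≤ (k * n - 1 + 1) ^ 2 := hm₀ (k * n - 1) (by omega)
    have h3 : k * n - 1 + 1 = k * n := by omega
    rw [h3] at h2
    have h4 : (k * n) ^ 2 ≤ (n * n) ^ 2 := Nat.pow_le_pow_left (Nat.mul_le_mul_right _ hk1.2) 2
    exact (h2.trans h4).trans (le_of_eq (by ring))
  have hinj : ∀ k ∈ A, ∀ k' ∈ A, k ≠ k' → p (k * n) ≠ p (k' * n) := by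
    intro k hk k' hk' hne hkk
    have hk1 := (mem_Icc.1 (hA hk)).1
    have hk1' := (mem_Icc.1 (hA hk')).1
    have h1 : k * n - 1 = k' * n - 1 := (Nat.nth_strictMono Nat.infinite_setOfPred_prime).injective hkk
    have h2 : 1 ≤ k * n := Nat.mul_pos hk1 hn1
    have h3 : 1 ≤ k' * n := Nat.mul_pos hk1' hn1
    have h4 : k * n = k' * n := by omega
    exact hne (Nat.eq_of_mul_eq_mul_right hn1 h4)
  set g : ℕ → ℕ := fun k => p (k * n) ^ i with hg
  set H : ℕ → ℤ := fun k => a * (p (k * n) : ℤ) ^ 2 + b * (p (k * n) : ℤ) + c with hH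
  have hi2 : i ≤ 2 := by rcases hi with rfl | rfl <;> norm_num
  have hn512 : ∀ k ∈ A, p (k * n) ^ 128 ≤ n ^ 512 := by
    intro k hk
    calc p (k * n) ^ 128 ≤ (n ^ 4) ^ 128 := Nat.pow_le_pow_left (hp2 k hk) _
      _ = n ^ 512 := by rw [← pow_mul]
  have hmain := h Z (hnz.trans hZn) A g H hA2 (by
    intro k hk
    have h1 := (hpp (k * n)).pos
    refine ⟨Nat.pos_of_ne_zero (by simp only [hg]; positivity), ?_, ?_, ?_⟩
    · calc g k ^ 64 = p (k * n) ^ (i * 64) := by simp only [hg]; rw [pow_mul]
        _ ≤ p (k * n) ^ 128 := Nat.pow_le_pow_right h1 (by omega)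
        _ ≤ n ^ 512 := hn512 k hk
        _ ≤ n ^ 513 := Nat.pow_le_pow_right hn1 (by norm_num)
        _ ≤ Z := hZ
    · have h2 : (H k).natAbs ≤ S * p (k * n) ^ 2 := by
        have h3 : (H k).natAbs ≤ a.natAbs * p (k * n) ^ 2 + b.natAbs * p (k * n) + c.natAbs := by
          simp only [hH]
          refine (Int.natAbs_add_le _ _).trans (Nat.add_le_add_right ?_ _)
          refine (Int.natAbs_add_le _ _).trans (le_of_eq ?_)
          rw [Int.natAbs_mul, Int.natAbs_mul, Int.natAbs_pow, Int.natAbs_natCast]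
        have h4 : p (k * n) ≤ p (k * n) ^ 2 := Nat.le_self_pow (by norm_num) _
        have h5 : 1 ≤ p (k * n) ^ 2 := Nat.one_le_pow _ _ h1
        calc (H k).natAbs ≤ a.natAbs * p (k * n) ^ 2 + b.natAbs * p (k * n) + c.natAbs := h3
          _ ≤ a.natAbs * p (k * n) ^ 2 + b.natAbs * p (k * n) ^ 2 + c.natAbs * p (k * n) ^ 2 :=
              Nat.add_le_add (Nat.add_le_add_left (Nat.mul_le_mul_left _ h4) _) (Nat.le_mul_of_pos_right _ h5)
          _ = S * p (k * n) ^ 2 := by rw [hS]; ring
      calc (H k).natAbs ^ 64 ≤ (S * p (k * n) ^ 2) ^ 64 := Nat.pow_le_pow_left h2 _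
        _ = S ^ 64 * p (k * n) ^ 128 := by rw [mul_pow, ← pow_mul]
        _ ≤ n * n ^ 512 := Nat.mul_le_mul hnS (hn512 k hk)
        _ = n ^ 513 := by ring
        _ ≤ Z := hZ
    · simp only [hg, hH]
      push_cast
      apply IsCoprime.pow_left
      have h2 : IsCoprime (p (k * n) : ℤ) c := by
        rw [Int.isCoprime_iff_gcd_eq_one]
        have h3 : Nat.Coprime (p (k * n)) c.natAbs := by
          rw [(hpp (k * n)).coprime_iff_not_dvd]
          intro h4
          have h5 := Nat.le_of_dvd (Int.natAbs_pos.2 hc) h4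
          have h6 := hp1 k hk
          omega
        exact h3
      have h3 := h2.add_mul_left_right (a * (p (k * n) : ℤ) + b)
      have e : c + (p (k * n) : ℤ) * (a * (p (k * n) : ℤ) + b) = a * (p (k * n) : ℤ) ^ 2 + b * (p (k * n) : ℤ) + c := by
        ring
      rwa [e] at h3) (by
    intro s hs t ht hst
    have h1 := hinj s hs t ht hst
    refine ⟨?_, ?_⟩
    · simp only [hg]
      apply Nat.Coprime.pow
      exact (Nat.coprime_primes (hpp _) (hpp _)).2 h1
    · have h2 := hp1 s hs
      have h3 := hp1 t ht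
      exact ne_of_ne i a b c hc hi (p (s * n)) (p (t * n)) (by omega) (by omega) h1)
  refine ⟨_, filter_subset _ _, hmain, fun j hj => ?_⟩
  obtain ⟨h2, h3, h4⟩ := (mem_filter.1 hj).2
  have e1 : Pool.Agent.Helper24K9.LI.cnt A g H j = count A n i a b c j := by
    unfold Pool.Agent.Helper24K9.LI.cnt count val
    simp only [hg, hH]
    push_cast
    rfl
  have e2 : (Pool.Agent.Helper24K9.LI.uns A g H ⌊Real.log Z / 64⌋₊ j : ℝ) /
      Pool.Agent.W218.HF.Wz ⌊Real.log Z / 64⌋₊ = rough A n i a b c ⌊Real.log Z / 64⌋₊ j := by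
    unfold Pool.Agent.Helper24K9.LI.uns Pool.Agent.W218.HF.Wz rough val
    simp only [hg, hH]
    push_cast
    rfl
  rw [e1] at h2 h3 h4
  rw [e2] at h4
  exact ⟨h2, h3, h4⟩

end Pool.Agent.Results.MP_c971ef_nt.PolynomialRange
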